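import Pool.Agent.H34.DR.Main

/-!
# Pair correlation holds as soon as the form factor is nowhere larger than one

`γ 1 ≤ γ 2 ≤ …` are the ordinates of the nontrivial zeros of the Riemann zeta function in the upper half-plane, with
multiplicity, and `Correlation 1 l` is pair correlation, for `T → ∞` along the filter `l` (`l = atTop`, or along a sequence of
heights).  Under the Riemann hypothesis we prove:

* if along `l` the pairs of zeros have a continuous density `1 - h` with `h` even and positive definite (that is,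
  if the form factor, `1` minus the transform of `h`, is nowhere larger than `1`), then `h(u) = (sin πu / πu)²`, and pair
  correlation holds along `l`;
* so pair correlation is equivalent to: every sequence of heights has a subsequence along which the pairs have such a density.

Idea of the proof.  Let `ν ≥ 0` be the measure with the transform `h`.  Montgomery's theorem (for the zeros up to `T`, derived
here from the library theorem for dyadic blocks) says that `ν` is `(1 - |α|) dα` on `(-1, 1)`; this has the mass `1`, and `ν` has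
the mass `h(0) ≤ 1`, since the pair density `1 - h` is nonnegative at `0`; so `ν` has no mass elsewhere and `h` is the
transform of the tent.  (In the proof `ν` is not used; positivity is used for the kernel `(δ - τ) * (δ - τ)`, where the
transform of `τ` is close to `1` on `(-1, 1)` and `0` elsewhere.)
-/

open Filter Topology MeasureTheory
open scoped ComplexOrder ComplexConjugate

namespace Pool.Agent.Results.MP_67227b_nt.FormFactorAtMostOne

open H34.DR

/-- multiplicity of `s` as a zero of the Riemann zeta function (order of vanishing at `s`) -/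
noncomputable def zmult (s : ℂ) : ℕ := analyticOrderNatAt riemannZeta s

/-- the number of nontrivial zeros of `ζ` with ordinate in `(0, t]`, with multiplicity -/
noncomputable def NZ (t : ℝ) : ℕ :=
  ∑ᶠ s ∈ {s : ℂ | riemannZeta s = 0 ∧ 0 < s.re ∧ s.re < 1 ∧ 0 < s.im ∧ s.im ≤ t}, zmult s

/-- for `n ≥ 1`: the `n`-th positive ordinate `γ n` of a nontrivial zero of `ζ`, the ordinates being
listed in nondecreasing order and repeated according to multiplicity -/
noncomputable def γ (n : ℕ) : ℝ := sInf {t : ℝ | n ≤ NZ t}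

/-- `N_k(T; B)` with `k = r + 1` and `B = ∏ [a_i, b_i]`: the number of `k`-tuples of pairwise
distinct indices with ordinates at most `T` whose normalised differences with the last ordinate
lie in the box `B` -/
noncomputable def Nk (r : ℕ) (T : ℝ) (a b : Fin r → ℝ) : ℕ :=
  {j : Fin (r + 1) → ℕ | Function.Injective j ∧ (∀ i, 1 ≤ j i ∧ γ (j i) ≤ T) ∧
    ∀ i : Fin r, (γ (j i.castSucc) - γ (j (Fin.last r))) * (Real.log T / (2 * Real.pi)) ∈
      Set.Icc (a i) (b i)}.ncard

/-- the matrix `A(u_1, …, u_n)` with the entries `sin π(u_i - u_j) / (π(u_i - u_j))`, which is `1`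
for `u_i = u_j` -/
noncomputable def sineMatrix {n : ℕ} (u : Fin n → ℝ) : Matrix (Fin n) (Fin n) ℝ :=
  Matrix.of fun i j => Real.sinc (Real.pi * (u i - u j))

/-- the statement of the question for `k = r + 1`, for `T → ∞` along the filter `l`: for every box
`B`, the quotient of `N_k(T; B)` and `(T / 2π) log T` tends to `∫_B det A(u_1, …, u_{k-1}, 0) du` -/
def Correlation (r : ℕ) (l : Filter ℝ) : Prop :=
  ∀ a b : Fin r → ℝ, (∀ i, a i < b i) →
    Tendsto (fun T : ℝ => (Nk r T a b : ℝ) / (T / (2 * Real.pi) * Real.log T)) l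
      (𝓝 (∫ u in Set.Icc a b, (sineMatrix (Fin.snoc u 0 : Fin (r + 1) → ℝ)).det))

/-- the pairs of zeros have the density `ρ`, for `T → ∞` along the filter `l` -/
def HasPairDensity (ρ : ℝ → ℝ) (l : Filter ℝ) : Prop :=
  ∀ α β : ℝ, α < β →
    Tendsto (fun T : ℝ => (Nk 1 T (fun _ => α) (fun _ => β) : ℝ) / (T / (2 * Real.pi) * Real.log T)) l
      (𝓝 (∫ u in α..β, ρ u))

/-- `h` is a positive definite function on the line -/
def PositiveDefinite (h : ℝ → ℝ) : Prop :=
  ∀ (n : ℕ) (x w : Fin n → ℝ), 0 ≤ ∑ i, ∑ j, w i * w j * h (x i - x j)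

theorem Nk_one (T α β : ℝ) (a b : Fin 1 → ℝ) (ha : a 0 = α) (hb : b 0 = β) :
    Nk 1 T a b = (AP T T α β).card := by
  unfold Nk
  rw [← Set.ncard_coe_finset]
  set f : (Fin 2 → ℕ) → ℕ × ℕ := fun j => (j 0, j 1) with hf
  have hinj : Function.Injective f := by
    intro j j' h
    simp only [hf, Prod.mk.injEq] at h
    ext i
    fin_cases i
    · exact h.1
    · exact h.2
  rw [← Set.ncard_image_of_injective _ hinj]
  congr 1
  ext z
  simp only [Set.mem_image, Set.mem_ofPred_eq, Finset.mem_coe]
  unfold AP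
  rw [Finset.mem_filter, Finset.mem_offDiag, mem_Icc_NZ, mem_Icc_NZ]
  constructor
  · rintro ⟨j, ⟨h1, h2, h3⟩, rfl⟩
    have h4 := h3 0
    rw [ha, hb] at h4
    exact ⟨⟨h2 0, h2 1, fun h => absurd (h1 h) (by decide)⟩, h4⟩
  · rintro ⟨⟨h1, h2, h3⟩, h4⟩
    refine ⟨![z.1, z.2], ⟨?_, ?_, ?_⟩, rfl⟩
    · intro i j hij
      fin_cases i <;> fin_cases j
      · rfl
      · exact absurd hij h3
      · exact absurd hij.symm h3
      · rfl
    · intro i
      fin_cases i
      · exact h1
      · exact h2
    · intro i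
      fin_cases i
      show _ ∈ Set.Icc (a 0) (b 0)
      rw [ha, hb]
      exact h4

theorem pair_part (hRH : RiemannHypothesis) {l : Filter ℝ} (hl : l ≤ atTop) [l.NeBot] {h : ℝ → ℝ}
    (hc : Continuous h) (he : ∀ x, h (-x) = h x) (hp : PositiveDefinite h)
    (hd : HasPairDensity (fun u => 1 - h u) l) :
    (∀ u, h u = Real.sinc (Real.pi * u) ^ 2) ∧ Correlation 1 l := by
  have hP : PDr h := by
    intro ι _ x w
    set e := Fintype.equivFin ι
    have h1 := hp (Fintype.card ι) (fun i => x (e.symm i)) (fun i => w (e.symm i))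
    refine h1.trans (le_of_eq ?_)
    rw [← Equiv.sum_comp e.symm (fun i => ∑ j, w i * w j * h (x i - x j))]
    apply Finset.sum_congr rfl
    intro i _
    rw [← Equiv.sum_comp e.symm (fun j => w (e.symm i) * w j * h (x (e.symm i) - x j))]
  have hPD : PairDensity l (fun u => 1 - h u) := by
    intro a b hab
    have h1 := hd a b hab
    simp_rw [Nk_one _ a b (fun _ => a) (fun _ => b) rfl rfl] at h1
    exact h1
  have hs := pair_level hRH hl hc he hP hPD
  refine ⟨hs, fun a b hab => ?_⟩
  have h1 := hPD (a 0) (b 0) (hab 0)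
  rw [← integral_fin_one _ a b (hab 0)] at h1
  have e1 : ∀ u : Fin 1 → ℝ, (sineMatrix (Fin.snoc u 0 : Fin (1 + 1) → ℝ)).det = 1 - h (u 0) := by
    intro u
    have e2 : (Fin.snoc u 0 : Fin 2 → ℝ) 0 = u 0 := rfl
    have e3 : (Fin.snoc u 0 : Fin 2 → ℝ) 1 = 0 := rfl
    rw [Matrix.det_fin_two, hs]
    simp only [sineMatrix, Matrix.of_apply, e2, e3, sub_self, mul_zero, Real.sinc_zero, sub_zero,
      zero_sub, mul_neg, Real.sinc_neg]
    ring
  simp_rw [e1, Nk_one _ (a 0) (b 0) a b rfl rfl]
  exact h1

theorem sinc_sq_pd : PositiveDefinite (fun x => Real.sinc (Real.pi * x) ^ 2) := by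
  intro n x w
  classical
  have hM := s_PSD (Fin n) x
  have hM2 := hM.hadamard hM
  have h1 := hM2.dotProduct_mulVec_nonneg (fun i : Fin n => (w i : ℂ))
  have h2 : star (fun i : Fin n => (w i : ℂ)) ⬝ᵥ
      (Matrix.hadamard (Matrix.of fun i j => (s (x i - x j) : ℂ))
        (Matrix.of fun i j => (s (x i - x j) : ℂ))).mulVec (fun i : Fin n => (w i : ℂ)) =
      ((∑ i, ∑ j, w i * w j * Real.sinc (Real.pi * (x i - x j)) ^ 2 : ℝ) : ℂ) := by
    simp only [dotProduct, Matrix.mulVec, Matrix.hadamard_apply, Matrix.of_apply, Pi.star_apply]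
    push_cast
    apply Finset.sum_congr rfl
    intro i _
    rw [Finset.mul_sum]
    apply Finset.sum_congr rfl
    intro j _
    have h3 : star ((w i : ℝ) : ℂ) = ((w i : ℝ) : ℂ) := Complex.conj_ofReal _
    rw [h3]
    simp only [s]
    ring
  rw [h2] at h1
  exact_mod_cast h1

theorem sine_det2 (u : Fin 1 → ℝ) :
    (sineMatrix (Fin.snoc u 0 : Fin (1 + 1) → ℝ)).det = 1 - Real.sinc (Real.pi * u 0) ^ 2 := by
  have e2 : (Fin.snoc u 0 : Fin 2 → ℝ) 0 = u 0 := rfl
  have e3 : (Fin.snoc u 0 : Fin 2 → ℝ) 1 = 0 := rfl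
  rw [Matrix.det_fin_two]
  simp only [sineMatrix, Matrix.of_apply, e2, e3, sub_self, mul_zero, Real.sinc_zero, sub_zero,
    zero_sub, mul_neg, Real.sinc_neg]
  ring

/-- **Under the Riemann hypothesis, pair correlation holds as soon as the form factor is nowhere larger than one.**
(1) A pair density `1 - h` with `h` even, continuous and positive definite is the one of the sine kernel.
(2) Pair correlation holds if and only if every sequence of heights has a subsequence along which the pairs have such a
density. -/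
theorem result (hRH : RiemannHypothesis) :
    (∀ l : Filter ℝ, l ≤ atTop → l.NeBot → ∀ h : ℝ → ℝ, Continuous h → (∀ x, h (-x) = h x) →
      PositiveDefinite h → HasPairDensity (fun u => 1 - h u) l →
        (∀ u, h u = Real.sinc (Real.pi * u) ^ 2) ∧ Correlation 1 l) ∧
    (Correlation 1 atTop ↔
      ∀ T : ℕ → ℝ, Tendsto T atTop atTop → ∃ φ : ℕ → ℕ, StrictMono φ ∧
        ∃ h : ℝ → ℝ, Continuous h ∧ (∀ x, h (-x) = h x) ∧ PositiveDefinite h ∧
          HasPairDensity (fun u => 1 - h u) (map (fun n => T (φ n)) atTop)) := by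
  refine ⟨fun l hl hn h hc he hp hd => ?_, fun h T hT => ?_, fun h a b hab => ?_⟩
  · have := hn
    exact pair_part hRH hl hc he hp hd
  · refine ⟨id, strictMono_id, fun x => Real.sinc (Real.pi * x) ^ 2, ?_, ?_, sinc_sq_pd, ?_⟩
    · exact (Real.continuous_sinc.comp (by fun_prop)).pow 2
    · intro x
      show Real.sinc (Real.pi * -x) ^ 2 = Real.sinc (Real.pi * x) ^ 2
      rw [mul_neg, Real.sinc_neg]
    · intro α β hαβ
      have h1 := (h (fun _ => α) (fun _ => β) (fun _ => hαβ)).mono_left hT
      have h2 : ∫ u in Set.Icc (fun _ : Fin 1 => α) (fun _ : Fin 1 => β),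
          (sineMatrix (Fin.snoc u 0 : Fin (1 + 1) → ℝ)).det =
          ∫ u in α..β, (1 - Real.sinc (Real.pi * u) ^ 2) := by
        rw [← integral_fin_one (fun u => 1 - Real.sinc (Real.pi * u) ^ 2)
          (fun _ => α) (fun _ => β) hαβ]
        apply integral_congr_ae
        exact Eventually.of_forall fun u => sine_det2 u
      rw [h2] at h1
      exact h1
  · apply tendsto_of_subseq_tendsto
    intro T hT
    obtain ⟨φ, hφ, g, hg1, hg2, hg3, hg4⟩ := h T hT
    refine ⟨φ, ?_⟩
    have hl : map (fun n => T (φ n)) atTop ≤ atTop := hT.comp hφ.tendsto_atTop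
    have h1 := (pair_part hRH hl hg1 hg2 hg3 hg4).2 a b hab
    exact h1.comp tendsto_map

end Pool.Agent.Results.MP_67227b_nt.FormFactorAtMostOne
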