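import Pool.Agent.H19.HL.RvM

/-!
# Each level of the correlations of the zeta zeros implies the lower ones

`γ 1 ≤ γ 2 ≤ …` are the ordinates of the nontrivial zeros of the Riemann zeta function in the upper
half-plane, with multiplicity.  `Correlation r` is the statement of the problem for `k = r + 1`:
for every box `B` of `ℝ^r` the number `N_k(T; B)` of `k`-tuples of distinct indices with
normalised differences in `B`, divided by `(T / 2π) log T`, tends to the integral over `B` of the
determinant of the sine kernel.  We prove, without any hypothesis, that `Correlation r` implies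
`Correlation s` for all `s ≤ r`, also along an arbitrary sequence of heights `T → ∞`.  So Q1 holds
as soon as it holds for infinitely many `k`; and if it fails for one `k` and one box, for instance
if the pair correlation conjecture is false, then it fails for every larger `k`.

Idea of the proof.  Integrating a variable of the `k + 1`-level statement over a long interval
counts the `k`-tuples with the weight `n`, the number of the zeros in a window of `R` mean
spacings near the tuple.  The `k + 1`-level statement bounds the `(k + 1)`-th moment of the number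
of the zeros in windows of length `R` by `(1 + o(1)) R^(k+1)`, since the determinant is at most
`1`; the first moment is `R` by the asymptotic formula for the number of the zeros.  By the strict
convexity of the power function almost all windows contain `(1 + o(1)) R` zeros, in the sense of
the mean of order `k + 1`, and by Hölder's inequality the same holds for the windows at the
tuples.  Finally the determinant for `k + 1` points tends to the one for `k` points when one
point moves to infinity.
-/

open Filter Topology MeasureTheory

namespace Pool.Agent.Results.MP_67227b_nt.LevelsDescend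

/-- multiplicity of `s` as a zero of the Riemann zeta function (order of vanishing at `s`) -/
noncomputable def zmult (s : ℂ) : ℕ := analyticOrderNatAt riemannZeta s

/-- the number of nontrivial zeros of `ζ` with ordinate in `(0, t]`, with multiplicity -/
noncomputable def NZ (t : ℝ) : ℕ :=
  ∑ᶠ s ∈ {s : ℂ | riemannZeta s = 0 ∧ 0 < s.re ∧ s.re < 1 ∧ 0 < s.im ∧ s.im ≤ t}, zmult s

/-- for `n ≥ 1`: the `n`-th positive ordinate `γ n` of a nontrivial zero of `ζ`, the ordinates being
listed in nondecreasing order and repeated according to multiplicity -/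
noncomputable def γ (n : ℕ) : ℝ := sInf {t : ℝ | n ≤ NZ t}

/-- `N_k(T; B)` with `k = r + 1` and `B = ∏ [a_i, b_i]`: the number of `k`-tuples of pairwise
distinct indices with ordinates at most `T` whose normalised differences with the last ordinate
lie in the box `B` -/
noncomputable def Nk (r : ℕ) (T : ℝ) (a b : Fin r → ℝ) : ℕ :=
  {j : Fin (r + 1) → ℕ | Function.Injective j ∧ (∀ i, 1 ≤ j i ∧ γ (j i) ≤ T) ∧
    ∀ i : Fin r, (γ (j i.castSucc) - γ (j (Fin.last r))) * (Real.log T / (2 * Real.pi)) ∈
      Set.Icc (a i) (b i)}.ncard

/-- the matrix `A(u_1, …, u_n)` with the entries `sin π(u_i - u_j) / (π(u_i - u_j))`, which is `1`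
for `u_i = u_j` -/
noncomputable def sineMatrix {n : ℕ} (u : Fin n → ℝ) : Matrix (Fin n) (Fin n) ℝ :=
  Matrix.of fun i j => Real.sinc (Real.pi * (u i - u j))

/-- the statement of the question for `k = r + 1`, for `T → ∞` along the filter `l`: for every box
`B`, the quotient of `N_k(T; B)` and `(T / 2π) log T` tends to `∫_B det A(u_1, …, u_{k-1}, 0) du` -/
def Correlation (r : ℕ) (l : Filter ℝ) : Prop :=
  ∀ a b : Fin r → ℝ, (∀ i, a i < b i) →
    Tendsto (fun T : ℝ => (Nk r T a b : ℝ) / (T / (2 * Real.pi) * Real.log T)) l
      (𝓝 (∫ u in Set.Icc a b, (sineMatrix (Fin.snoc u 0 : Fin (r + 1) → ℝ)).det))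

theorem gamma_eq (n : ℕ) : γ n = SG.ord n := rfl

theorem Nk_eq (r : ℕ) (T : ℝ) (a b : Fin r → ℝ) :
    (Nk r T a b : ℝ) = H19.HL.zetaPD.S r a b T := by
  unfold Nk H19.HL.PD.S
  rw [← Set.ncard_coe_finset]
  congr 2
  ext j
  simp only [Set.mem_ofPred_eq, Finset.mem_coe, H19.HL.mem_tup]
  have h1 : ∀ i, j i ∈ H19.HL.zetaPD.F T ↔ 1 ≤ j i ∧ γ (j i) ≤ T := by
    intro i
    unfold H19.HL.PD.F
    rw [Finset.mem_Icc]
    constructor
    · rintro ⟨h2, h3⟩
      exact ⟨h2, (H19.HL.zetaPD.hx _ h2 T).mpr h3⟩
    · rintro ⟨h2, h3⟩
      exact ⟨h2, (H19.HL.zetaPD.hx _ h2 T).mp h3⟩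
  have h2 : ∀ i : Fin r, H19.HL.zetaPD.y T (j i.castSucc) - H19.HL.zetaPD.y T (j (Fin.last r)) =
      (γ (j i.castSucc) - γ (j (Fin.last r))) * (Real.log T / (2 * Real.pi)) := by
    intro i
    unfold H19.HL.PD.y
    rw [sub_mul]
    rfl
  simp only [h1, h2]
  tauto

theorem corr_iff (r : ℕ) (l : Filter ℝ) : Correlation r l ↔ H19.HL.zetaPD.Level l r := by
  unfold Correlation H19.HL.PD.Level
  simp only [Nk_eq]
  rfl

/-- **Each level of the correlations implies the lower ones**, along every sequence of heights
(every filter `l ≤ atTop`); and Q1 is equivalent to its truth for infinitely many `k`. -/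
theorem result :
    (∀ l : Filter ℝ, l ≤ atTop → ∀ s r : ℕ, s ≤ r → Correlation r l → Correlation s l) ∧
    ((∀ r : ℕ, 1 ≤ r → Correlation r atTop) ↔ ∀ m : ℕ, ∃ r : ℕ, m ≤ r ∧ Correlation r atTop) := by
  have h1 : ∀ l : Filter ℝ, l ≤ atTop → ∀ s r : ℕ, s ≤ r → Correlation r l → Correlation s l := by
    intro l hl s r hsr h
    rw [corr_iff] at h ⊢
    induction r, hsr using Nat.le_induction with
    | base => exact h
    | succ r _ ih => exact ih (H19.HL.PD.step hl h)
  refine ⟨h1, fun h m => ⟨m + 1, by omega, h (m + 1) (by omega)⟩, fun h r _ => ?_⟩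
  obtain ⟨r', hr', h'⟩ := h r
  exact h1 atTop le_rfl r r' hr' h'

end Pool.Agent.Results.MP_67227b_nt.LevelsDescend
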