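import Pool.Agent.H34.SL.Main

/-!
# One determinantal level of the zeros forces the sine kernel

`γ 1 ≤ γ 2 ≤ …` are the ordinates of the nontrivial zeros of the Riemann zeta function in the upper half-plane, with
multiplicity, and `Correlation r l` is the statement of the problem for `k = r + 1`, for `T → ∞` along the filter `l`
(`l = atTop`, or along a sequence of heights).  Under the Riemann hypothesis we prove, for every single `k ≥ 2`:

* if along `l` the `k`-level correlations of the zeros (at this level only) are the determinants of some continuous positive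
  semidefinite kernel `K(x, y)`, `K(x, x) = 1`, not assumed to depend on `x - y`, then all the determinants of `K`, of all
  orders, are those of the sine kernel; so the statement of the question for `k` holds along `l`;
* so the statement of the question for `k` is equivalent to: every sequence of heights has a subsequence along which the
  `k`-level correlations are the determinants of some such kernel.

(That the statement for `k` implies those for the smaller levels is our `LevelsDescend`.)

Idea of the proof.  *From one level to the one below.*  Let `W_n` be the number of the zeros at distance at most `L` (mean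
spacings) from the zero `γ_n`, and let `p = k - 1`.  By the hypothesis for the cube `[-L, L]^p`, and since the determinants are at
most `1`, the mean of `W_n (W_n - 1) ⋯ (W_n - p + 1)` is at most `(2 L)^p`; so the mean of `W_n` is at most `2 L + p`, for
all `L`.  The mean of `(Λ - |γ - γ'|)₊` over the pairs is at least `Λ²`, as the mean of the square of the number of zeros in a
window of length `Λ` is at least the square of the mean.  Comparing `Λ = L` and `Λ = L + √L`, we get a lower bound
`2 L - O(√L)` for the mean of `W_n`.  For `p ≥ 2` strict convexity shows that `W_n` is `(2 + o(1)) L` for almost all zeros, in the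
mean of order `p`, and that the mean of the determinants over the cube is `1 - o(1)`; so the mean of `|K(x, y)|²` over
`|x - y| ≤ L` tends to `0`, uniformly in `y`.  Now the last coordinate of the `k`-tuples is spread over `[-L, L]`:
the count is `2 L` times the count of `(k-1)`-tuples, and the determinants of order `k` are near those of order `k - 1`.
*Level two.*  Here `|K(x, y)|²` is positive definite, and Montgomery's theorem shows that it is `(sin π(x-y)/π(x-y))²`;
finally a positive definite kernel with this modulus is the sine kernel up to a gauge factor (both steps are in the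
files `Pool/Agent/H34/DR`).
-/

open Filter Topology MeasureTheory
open scoped ComplexOrder

namespace Pool.Agent.Results.MP_67227b_nt.SingleLevel

open H34 H34.SL

/-- multiplicity of `s` as a zero of the Riemann zeta function (order of vanishing at `s`) -/
noncomputable def zmult (s : ℂ) : ℕ := analyticOrderNatAt riemannZeta s

/-- the number of nontrivial zeros of `ζ` with ordinate in `(0, t]`, with multiplicity -/
noncomputable def NZ (t : ℝ) : ℕ :=
  ∑ᶠ s ∈ {s : ℂ | riemannZeta s = 0 ∧ 0 < s.re ∧ s.re < 1 ∧ 0 < s.im ∧ s.im ≤ t}, zmult s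

/-- for `n ≥ 1`: the `n`-th positive ordinate `γ n` of a nontrivial zero of `ζ`, the ordinates being
listed in nondecreasing order and repeated according to multiplicity -/
noncomputable def γ (n : ℕ) : ℝ := sInf {t : ℝ | n ≤ NZ t}

/-- `N_k(T; B)` with `k = r + 1` and `B = ∏ [a_i, b_i]`: the number of `k`-tuples of pairwise
distinct indices with ordinates at most `T` whose normalised differences with the last ordinate
lie in the box `B` -/
noncomputable def Nk (r : ℕ) (T : ℝ) (a b : Fin r → ℝ) : ℕ :=
  {j : Fin (r + 1) → ℕ | Function.Injective j ∧ (∀ i, 1 ≤ j i ∧ γ (j i) ≤ T) ∧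
    ∀ i : Fin r, (γ (j i.castSucc) - γ (j (Fin.last r))) * (Real.log T / (2 * Real.pi)) ∈
      Set.Icc (a i) (b i)}.ncard

/-- the matrix `A(u_1, …, u_n)` with the entries `sin π(u_i - u_j) / (π(u_i - u_j))`, which is `1`
for `u_i = u_j` -/
noncomputable def sineMatrix {n : ℕ} (u : Fin n → ℝ) : Matrix (Fin n) (Fin n) ℝ :=
  Matrix.of fun i j => Real.sinc (Real.pi * (u i - u j))

/-- the statement of the question for `k = r + 1`, for `T → ∞` along the filter `l`: for every box
`B`, the quotient of `N_k(T; B)` and `(T / 2π) log T` tends to `∫_B det A(u_1, …, u_{k-1}, 0) du` -/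
def Correlation (r : ℕ) (l : Filter ℝ) : Prop :=
  ∀ a b : Fin r → ℝ, (∀ i, a i < b i) →
    Tendsto (fun T : ℝ => (Nk r T a b : ℝ) / (T / (2 * Real.pi) * Real.log T)) l
      (𝓝 (∫ u in Set.Icc a b, (sineMatrix (Fin.snoc u 0 : Fin (r + 1) → ℝ)).det))

/-- the matrix with the entries `K(u_i, u_j)` -/
noncomputable def kernelMatrix (K : ℝ → ℝ → ℂ) {n : ℕ} (u : Fin n → ℝ) : Matrix (Fin n) (Fin n) ℂ :=
  Matrix.of fun i j => K (u i) (u j)

/-- `K` is a continuous positive definite (Hermitian) kernel on the line with `K(x, x) = 1` -/
def IsKernel (K : ℝ → ℝ → ℂ) : Prop :=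
  (Continuous fun p : ℝ × ℝ => K p.1 p.2) ∧ (∀ x, K x x = 1) ∧
    ∀ (n : ℕ) (u : Fin n → ℝ), (kernelMatrix K u).PosSemidef

/-- the correlations of the zeros at the level `k = r + 1` are those of the determinantal point process with the kernel
`K`, for `T → ∞` along the filter `l`: for every box `B` and every base point `c`, the quotient of `N_k(T; B)` and
`(T / 2π) log T` tends to the integral over `B` of the determinant of the kernel at `c + u_1, …, c + u_{k-1}, c` -/
def DeterminantalAt (r : ℕ) (K : ℝ → ℝ → ℂ) (l : Filter ℝ) : Prop :=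
  ∀ (c : ℝ) (a b : Fin r → ℝ), (∀ i, a i < b i) →
    Tendsto (fun T : ℝ => (Nk r T a b : ℝ) / (T / (2 * Real.pi) * Real.log T)) l
      (𝓝 (∫ u in Set.Icc a b, (kernelMatrix K (Fin.snoc (fun i => c + u i) c : Fin (r + 1) → ℝ)).det.re))

theorem psd {K : ℝ → ℝ → ℂ} (hK : IsKernel K) : DR.PSDk K := by
  intro ι _ p
  classical
  have h1 := hK.2.2 (Fintype.card ι) (fun i => p ((Fintype.equivFin ι).symm i))
  rw [← Matrix.posSemidef_submatrix_equiv (Fintype.equivFin ι)] at h1
  convert h1 using 1
  ext i j
  simp [kernelMatrix]

theorem lev_iff {l : Filter ℝ} (hl : l ≤ atTop) (K : ℝ → ℝ → ℂ) (r : ℕ) :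
    (zS hl).Lev K r ↔ DeterminantalAt r K l := by
  unfold Sy.Lev DeterminantalAt
  have h : ∀ T a b, NT ((zS hl).X T) ((zS hl).y T) r a b = Nk r T a b := fun T a b =>
    (count r T a b).symm
  simp_rw [h]
  rfl

/-- the sine kernel -/
noncomputable def sineKernel (x y : ℝ) : ℂ := (Real.sinc (Real.pi * (x - y)) : ℂ)

theorem sine_isKernel : IsKernel sineKernel := by
  refine ⟨?_, ?_, ?_⟩
  · unfold sineKernel
    exact Complex.continuous_ofReal.comp (Real.continuous_sinc.comp (by fun_prop))
  · intro x
    unfold sineKernel
    simp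
  · intro n u
    exact DR.s_PSD (Fin n) u

theorem det_eq {K : ℝ → ℝ → ℂ}
    (hK : ∀ (n : ℕ) (u : Fin n → ℝ), (kernelMatrix K u).det = ((sineMatrix u).det : ℂ))
    {r : ℕ} (c : ℝ) (u : Fin r → ℝ) :
    (kernelMatrix K (Fin.snoc (fun i => c + u i) c : Fin (r + 1) → ℝ)).det.re =
      (sineMatrix (Fin.snoc u 0 : Fin (r + 1) → ℝ)).det := by
  have h1 : (Fin.snoc (fun i => c + u i) c : Fin (r + 1) → ℝ) =
      fun i => c + (Fin.snoc u 0 : Fin (r + 1) → ℝ) i := by
    ext i
    refine Fin.lastCases ?_ (fun i => ?_) i
    · simp
    · simp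
  rw [hK, Complex.ofReal_re, h1]
  congr 1
  ext i j
  simp only [sineMatrix, Matrix.of_apply]
  congr 2
  ring

theorem det_iff {K : ℝ → ℝ → ℂ}
    (hK : ∀ (n : ℕ) (u : Fin n → ℝ), (kernelMatrix K u).det = ((sineMatrix u).det : ℂ))
    (r : ℕ) (l : Filter ℝ) : DeterminantalAt r K l ↔ Correlation r l := by
  unfold DeterminantalAt Correlation
  simp_rw [det_eq hK]
  exact ⟨fun h => h 0, fun h _ => h⟩

theorem sine_dets (n : ℕ) (u : Fin n → ℝ) :
    (kernelMatrix sineKernel u).det = ((sineMatrix u).det : ℂ) := by
  have h2 : kernelMatrix sineKernel u = (sineMatrix u).map Complex.ofRealHom := by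
    ext i j
    simp only [kernelMatrix, sineKernel, sineMatrix, Matrix.of_apply, Matrix.map_apply,
      Complex.ofRealHom_eq_coe]
  rw [h2, ← RingHom.mapMatrix_apply, ← RingHom.map_det]
  rfl

theorem one_level (hRH : RiemannHypothesis) {r : ℕ} (hr : 1 ≤ r) {l : Filter ℝ} (hl : l ≤ atTop)
    [l.NeBot] {K : ℝ → ℝ → ℂ} (hK : IsKernel K) (hD : DeterminantalAt r K l) :
    (∀ (n : ℕ) (u : Fin n → ℝ), (kernelMatrix K u).det = ((sineMatrix u).det : ℂ)) ∧
      Correlation r l := by
  have H := (lev_iff hl K r).mpr hD
  have h1 : ∀ (n : ℕ) (u : Fin n → ℝ), (kernelMatrix K u).det = ((sineMatrix u).det : ℂ) :=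
    fun n u => dets hRH hl hK.1 (psd hK) hK.2.1 hr H u
  exact ⟨h1, (det_iff h1 r l).mp hD⟩

/-- **Under the Riemann hypothesis, one determinantal level of the zeros forces the sine kernel.**  Let `k = r + 1 ≥ 2`.
(1) If the `k`-level correlations of the zeros along `l` are the determinants of a continuous positive semidefinite kernel, then
its determinants of all orders are those of the sine kernel, and the statement of the question holds for `k` along `l`.
(2) The statement of the question for `k` holds if and only if every sequence of heights has a subsequence along which the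
`k`-level correlations are determinantal as in (1). -/
theorem result (hRH : RiemannHypothesis) :
    (∀ r : ℕ, 1 ≤ r → ∀ l : Filter ℝ, l ≤ atTop → l.NeBot → ∀ K : ℝ → ℝ → ℂ, IsKernel K →
      DeterminantalAt r K l →
        (∀ (n : ℕ) (u : Fin n → ℝ), (kernelMatrix K u).det = ((sineMatrix u).det : ℂ)) ∧
        Correlation r l) ∧
    (∀ r : ℕ, 1 ≤ r → (Correlation r atTop ↔
      ∀ T : ℕ → ℝ, Tendsto T atTop atTop → ∃ φ : ℕ → ℕ, StrictMono φ ∧
        ∃ K : ℝ → ℝ → ℂ, IsKernel K ∧ DeterminantalAt r K (map (fun n => T (φ n)) atTop))) := by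
  refine ⟨fun r hr l hl hn K hK hD => ?_, fun r hr => ⟨fun h T hT => ?_, fun h a b hab => ?_⟩⟩
  · have := hn
    exact one_level hRH hr hl hK hD
  · refine ⟨id, strictMono_id, sineKernel, sine_isKernel, ?_⟩
    rw [det_iff sine_dets]
    intro a b hab
    exact (h a b hab).mono_left hT
  · apply tendsto_of_subseq_tendsto
    intro T hT
    obtain ⟨φ, hφ, K, hK, hD⟩ := h T hT
    refine ⟨φ, ?_⟩
    have hl : map (fun n => T (φ n)) atTop ≤ atTop := hT.comp hφ.tendsto_atTop
    have h1 := (one_level hRH hr hl hK hD).2 a b hab
    exact h1.comp tendsto_map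

end Pool.Agent.Results.MP_67227b_nt.SingleLevel
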