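import Pool.Agent.H19.HL.RvM
import Pool.Agent.H19.UH.Main

/-!
# The upper halves of the correlation statements suffice

`γ 1 ≤ γ 2 ≤ …` are the ordinates of the nontrivial zeros of the Riemann zeta function in the upper
half-plane, with multiplicity.  `Correlation r` is the statement of the problem for `k = r + 1`, and
`UpperBound r` is its upper half: for every box `B`, the limes superior of
`N_k(T; B) / ((T / 2π) log T)` is at most the integral of the determinant of the sine kernel over
`B`.  We prove, without any hypothesis: the upper half for `k` points implies the whole statement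
for all `j ≤ k / 2 + 1`; so the pair correlation conjecture is equivalent to its upper half, and Q1
is equivalent to the upper halves for infinitely many `k`.  If Q1 is false for some `k`, then for
each large `k` there are a box and arbitrarily large `T` with too many `k`-tuples.

Idea of the proof.  By induction let the whole statement be known for `r + 1` points, and the upper
half for `2 r + 2` points (so also for fewer points).  Fix a box `B` for `r + 1` points and let `w`
be the integral over it.  Let `g(u)` be the number of the zeros in the window of length `R`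
beginning at `u`, and `f(u)` the number of the `(r + 1)`-tuples of type `B` with the last point in
this window.  The upper half for two points gives `∫ (g - R)² ≤ o(R) M`, because the total defect
`∫ (sin πv / πv)² dv` is `1` and cancels the diagonal.  The upper half for `2 r + 2` points and
Fischer's inequality (the determinant of the sine kernel at two tuples is at most the product of
the two determinants) give `∫ (f - w R)² ≤ O(R) M`.  So `∫ (f - w R)(g - R) ≥ -o(R) M`, a lower
bound for the sum of a tent function over the pairs of a tuple and a point.  By the reproducing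
property of the sine kernel, the integral of `det A(v, u, 0)` against the tent function is
`w R² - (r + 1) w R + o(R)`, and the `r + 1` points of the tuple itself contribute `(r + 1) w R`, so
that this lower bound is the one predicted, up to `o(R)`.  The upper half for `r + 2` points
outside of `[c, d] × B` turns it into the lower bound for `[c, d] × B`.
-/

open Filter Topology MeasureTheory

namespace Pool.Agent.Results.MP_67227b_nt.UpperHalf

/-- multiplicity of `s` as a zero of the Riemann zeta function (order of vanishing at `s`) -/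
noncomputable def zmult (s : ℂ) : ℕ := analyticOrderNatAt riemannZeta s

/-- the number of nontrivial zeros of `ζ` with ordinate in `(0, t]`, with multiplicity -/
noncomputable def NZ (t : ℝ) : ℕ :=
  ∑ᶠ s ∈ {s : ℂ | riemannZeta s = 0 ∧ 0 < s.re ∧ s.re < 1 ∧ 0 < s.im ∧ s.im ≤ t}, zmult s

/-- for `n ≥ 1`: the `n`-th positive ordinate `γ n` of a nontrivial zero of `ζ`, the ordinates being
listed in nondecreasing order and repeated according to multiplicity -/
noncomputable def γ (n : ℕ) : ℝ := sInf {t : ℝ | n ≤ NZ t}

/-- `N_k(T; B)` with `k = r + 1` and `B = ∏ [a_i, b_i]`: the number of `k`-tuples of pairwise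
distinct indices with ordinates at most `T` whose normalised differences with the last ordinate
lie in the box `B` -/
noncomputable def Nk (r : ℕ) (T : ℝ) (a b : Fin r → ℝ) : ℕ :=
  {j : Fin (r + 1) → ℕ | Function.Injective j ∧ (∀ i, 1 ≤ j i ∧ γ (j i) ≤ T) ∧
    ∀ i : Fin r, (γ (j i.castSucc) - γ (j (Fin.last r))) * (Real.log T / (2 * Real.pi)) ∈
      Set.Icc (a i) (b i)}.ncard

/-- the matrix `A(u_1, …, u_n)` with the entries `sin π(u_i - u_j) / (π(u_i - u_j))`, which is `1`
for `u_i = u_j` -/
noncomputable def sineMatrix {n : ℕ} (u : Fin n → ℝ) : Matrix (Fin n) (Fin n) ℝ :=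
  Matrix.of fun i j => Real.sinc (Real.pi * (u i - u j))

/-- the statement of the question for `k = r + 1`, for `T → ∞` along the filter `l`: for every box
`B`, the quotient of `N_k(T; B)` and `(T / 2π) log T` tends to `∫_B det A(u_1, …, u_{k-1}, 0) du` -/
def Correlation (r : ℕ) (l : Filter ℝ) : Prop :=
  ∀ a b : Fin r → ℝ, (∀ i, a i < b i) →
    Tendsto (fun T : ℝ => (Nk r T a b : ℝ) / (T / (2 * Real.pi) * Real.log T)) l
      (𝓝 (∫ u in Set.Icc a b, (sineMatrix (Fin.snoc u 0 : Fin (r + 1) → ℝ)).det))

/-- the upper half of `Correlation r l`: for every box `B`, the limes superior of the quotient of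
`N_k(T; B)` and `(T / 2π) log T` is at most `∫_B det A(u_1, …, u_{k-1}, 0) du` -/
def UpperBound (r : ℕ) (l : Filter ℝ) : Prop :=
  ∀ a b : Fin r → ℝ, (∀ i, a i < b i) → ∀ ε : ℝ, 0 < ε → ∀ᶠ T : ℝ in l,
    (Nk r T a b : ℝ) / (T / (2 * Real.pi) * Real.log T) ≤
      (∫ u in Set.Icc a b, (sineMatrix (Fin.snoc u 0 : Fin (r + 1) → ℝ)).det) + ε

theorem gamma_eq (n : ℕ) : γ n = SG.ord n := rfl

theorem Nk_eq (r : ℕ) (T : ℝ) (a b : Fin r → ℝ) :
    (Nk r T a b : ℝ) = H19.HL.zetaPD.S r a b T := by
  unfold Nk H19.HL.PD.S
  rw [← Set.ncard_coe_finset]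
  congr 2
  ext j
  simp only [Set.mem_ofPred_eq, Finset.mem_coe, H19.HL.mem_tup]
  have h1 : ∀ i, j i ∈ H19.HL.zetaPD.F T ↔ 1 ≤ j i ∧ γ (j i) ≤ T := by
    intro i
    unfold H19.HL.PD.F
    rw [Finset.mem_Icc]
    constructor
    · rintro ⟨h2, h3⟩
      exact ⟨h2, (H19.HL.zetaPD.hx _ h2 T).mpr h3⟩
    · rintro ⟨h2, h3⟩
      exact ⟨h2, (H19.HL.zetaPD.hx _ h2 T).mp h3⟩
  have h2 : ∀ i : Fin r, H19.HL.zetaPD.y T (j i.castSucc) - H19.HL.zetaPD.y T (j (Fin.last r)) =
      (γ (j i.castSucc) - γ (j (Fin.last r))) * (Real.log T / (2 * Real.pi)) := by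
    intro i
    unfold H19.HL.PD.y
    rw [sub_mul]
    rfl
  simp only [h1, h2]
  tauto

theorem corr_iff (r : ℕ) (l : Filter ℝ) : Correlation r l ↔ H19.HL.zetaPD.Level l r := by
  unfold Correlation H19.HL.PD.Level
  simp only [Nk_eq]
  rfl

theorem upper_iff (r : ℕ) (l : Filter ℝ) : UpperBound r l ↔ H19.HL.zetaPD.Upper l r := by
  unfold UpperBound H19.HL.PD.Upper
  simp only [Nk_eq]
  rfl

/-- **The upper halves suffice.**  Along every sequence of heights (every filter `l ≤ atTop`) the
upper half for `k = r + 1` implies the whole statement for `s + 1 ≤ k / 2 + 1`; the pair correlation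
conjecture is equivalent to its upper half; Q1 is equivalent to the upper halves for infinitely
many `k`. -/
theorem result :
    (∀ l : Filter ℝ, l ≤ atTop → ∀ s r : ℕ, 2 * s ≤ r + 1 → UpperBound r l → Correlation s l) ∧
    (∀ l : Filter ℝ, l ≤ atTop → (Correlation 1 l ↔ UpperBound 1 l)) ∧
    ((∀ r : ℕ, 1 ≤ r → Correlation r atTop) ↔ ∀ m : ℕ, ∃ r : ℕ, m ≤ r ∧ UpperBound r atTop) := by
  have h1 : ∀ l : Filter ℝ, l ≤ atTop → ∀ s r : ℕ, 2 * s ≤ r + 1 → UpperBound r l →
      Correlation s l := by
    intro l hl s r hsr h
    rw [corr_iff]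
    rw [upper_iff] at h
    exact H19.HL.PD.main hl hsr h
  have h2 : ∀ l : Filter ℝ, ∀ r : ℕ, Correlation r l → UpperBound r l := by
    intro l r h
    rw [corr_iff] at h
    rw [upper_iff]
    exact h.upper
  refine ⟨h1, fun l hl => ⟨h2 l 1, h1 l hl 1 1 le_rfl⟩, fun h m => ⟨m + 1, by omega,
    h2 _ _ (h (m + 1) (by omega))⟩, fun h r _ => ?_⟩
  obtain ⟨r', hr', h'⟩ := h (2 * r)
  exact h1 atTop le_rfl r r' (by omega) h'

end Pool.Agent.Results.MP_67227b_nt.UpperHalf
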